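import Pool.Agent.H281.A54.Final

namespace Pool.Agent.Results.MP_a54cc7_an.CompactNotPointwise

/-- The pointwise Bishop-Phelps-Bollobas property of the pair `(X, Y)`. -/
def PointwiseBPB (𝕜 X Y : Type) [RCLike 𝕜] [NormedAddCommGroup X] [NormedSpace 𝕜 X]
    [NormedAddCommGroup Y] [NormedSpace 𝕜 Y] : Prop :=
  ∀ ε : ℝ, 0 < ε → ∃ η : ℝ, 0 < η ∧ ∀ T : X →L[𝕜] Y, ‖T‖ = 1 → ∀ x₀ : X, ‖x₀‖ = 1 →
    ‖T x₀‖ > 1 - η → ∃ S : X →L[𝕜] Y, ‖S‖ = 1 ∧ ‖S x₀‖ = 1 ∧ ‖S - T‖ < ε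

/-- Its version for compact operators: both the given operator and the approximating one are
compact. -/
def PointwiseBPBCompact (𝕜 X Y : Type) [RCLike 𝕜] [NormedAddCommGroup X] [NormedSpace 𝕜 X]
    [NormedAddCommGroup Y] [NormedSpace 𝕜 Y] : Prop :=
  ∀ ε : ℝ, 0 < ε → ∃ η : ℝ, 0 < η ∧ ∀ T : X →L[𝕜] Y, IsCompactOperator T → ‖T‖ = 1 →
    ∀ x₀ : X, ‖x₀‖ = 1 → ‖T x₀‖ > 1 - η →
    ∃ S : X →L[𝕜] Y, IsCompactOperator S ∧ ‖S‖ = 1 ∧ ‖S x₀‖ = 1 ∧ ‖S - T‖ < ε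

/-- Over the real field and over the complex field there is a pair of Banach spaces which has
the compact-operator version of the pointwise Bishop-Phelps-Bollobas property but not the
pointwise Bishop-Phelps-Bollobas property itself. -/
theorem result (𝕜 : Type) [RCLike 𝕜] :
    ∃ (X Y : Type) (_ : NormedAddCommGroup X) (_ : NormedSpace 𝕜 X) (_ : CompleteSpace X)
      (_ : NormedAddCommGroup Y) (_ : NormedSpace 𝕜 Y) (_ : CompleteSpace Y),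
      PointwiseBPBCompact 𝕜 X Y ∧ ¬ PointwiseBPB 𝕜 X Y := by
  refine ⟨Pool.Agent.H281.A54.XX 𝕜, Pool.Agent.H281.A54.YY 𝕜, inferInstance, inferInstance,
    inferInstance, inferInstance, inferInstance, inferInstance, ?_, ?_⟩
  · intro ε hε
    obtain ⟨η, hη, h⟩ :=
      Pool.Agent.H281.A54.pk_of_usm (Pool.Agent.H281.A54.usm_XX (𝕜 := 𝕜)) ε hε
    exact ⟨η, hη, fun T hT hT1 x₀ hx₀ hTx => h T hT hT1 x₀ hx₀ hTx⟩
  · intro hP
    obtain ⟨η, hη, h⟩ := hP (1 / 4) (by norm_num)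
    obtain ⟨T, hT1, hTx, hbad⟩ := Pool.Agent.H281.A54.exists_bad (𝕜 := 𝕜) η hη
    obtain ⟨S, hS1, hSx, hST⟩ := h T hT1 _ Pool.Agent.H281.A54.norm_xz hTx
    exact absurd (hbad S hS1 hSx) (not_le.mpr hST)

end Pool.Agent.Results.MP_a54cc7_an.CompactNotPointwise
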